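import Pool.Agent.Helper41.Cluster4.Goals

/-! The checkerboard lattice has 1152 cluster symmetries at the origin. -/

namespace Pool.Agent.Helper70.C4

open Pool.Agent.Helper41.Cluster4 Pool.Agent.Helper65.Delone

/-- four-dimensional space -/
abbrev E4 : Type := EuclideanSpace ℝ (Fin 4)

/-- a signed permutation of the coordinates -/
noncomputable def sp (σ : Equiv.Perm (Fin 4)) (ε : Fin 4 → ℤˣ) (x : E4) : E4 :=
  WithLp.toLp 2 fun j => (((ε j : ℤˣ) : ℤ) : ℝ) * x (σ j)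

theorem sp_apply (σ : Equiv.Perm (Fin 4)) (ε : Fin 4 → ℤˣ) (x : E4) (j : Fin 4) :
    sp σ ε x j = (((ε j : ℤˣ) : ℤ) : ℝ) * x (σ j) := rfl

theorem unit_sq (e : ℤˣ) : (((e : ℤˣ) : ℤ) : ℝ) * (((e : ℤˣ) : ℤ) : ℝ) = 1 := by
  rcases Int.units_eq_one_or e with h | h <;> simp [h]

theorem sp_sp (σ : Equiv.Perm (Fin 4)) (ε : Fin 4 → ℤˣ) (x : E4) :
    sp σ.symm (fun j => ε (σ.symm j)) (sp σ ε x) = x := by
  ext j
  rw [sp_apply, sp_apply, ← mul_assoc, unit_sq, one_mul, Equiv.apply_symm_apply]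

theorem sp_sp' (σ : Equiv.Perm (Fin 4)) (ε : Fin 4 → ℤˣ) (x : E4) :
    sp σ ε (sp σ.symm (fun j => ε (σ.symm j)) x) = x := by
  ext j
  rw [sp_apply, sp_apply]
  simp only [Equiv.symm_apply_apply]
  rw [← mul_assoc, unit_sq, one_mul]

theorem sp_dist (σ : Equiv.Perm (Fin 4)) (ε : Fin 4 → ℤˣ) (x y : E4) :
    dist (sp σ ε x) (sp σ ε y) = dist x y := by
  rw [EuclideanSpace.dist_eq, EuclideanSpace.dist_eq]
  congr 1
  rw [← Equiv.sum_comp σ (fun j => dist (x j) (y j) ^ 2)]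
  refine Finset.sum_congr rfl fun j _ => ?_
  rw [sp_apply, sp_apply, Real.dist_eq, Real.dist_eq, sq_abs, sq_abs]
  have h := unit_sq (ε j)
  have h2 : ((((ε j : ℤˣ) : ℤ) : ℝ) * x (σ j) - (((ε j : ℤˣ) : ℤ) : ℝ) * y (σ j)) ^ 2 =
      ((((ε j : ℤˣ) : ℤ) : ℝ) * (((ε j : ℤˣ) : ℤ) : ℝ)) * (x (σ j) - y (σ j)) ^ 2 := by ring
  rw [h2, h, one_mul]

theorem sp_mem (σ : Equiv.Perm (Fin 4)) (ε : Fin 4 → ℤˣ) (x : E4) (hx : x ∈ D4) :
    sp σ ε x ∈ D4 := by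
  obtain ⟨n, hn, he⟩ := hx
  refine ⟨fun j => ((ε j : ℤˣ) : ℤ) * n (σ j), fun j => ?_, ?_⟩
  · rw [sp_apply, hn]
    push_cast
    ring
  · have h1 : ∑ j, ((ε j : ℤˣ) : ℤ) * n (σ j) =
        ∑ j, n (σ j) + ∑ j, (((ε j : ℤˣ) : ℤ) - 1) * n (σ j) := by
      rw [← Finset.sum_add_distrib]
      exact Finset.sum_congr rfl fun j _ => by ring
    rw [h1, Equiv.sum_comp σ n]
    refine he.add (Finset.even_sum _ fun j _ => ?_)
    rcases Int.units_eq_one_or (ε j) with h | h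
    · simp [h]
    · rw [h]
      exact ⟨-n (σ j), by push_cast; ring⟩

/-- the half-turn that mixes the coordinates -/
noncomputable def hh (x : E4) : E4 :=
  WithLp.toLp 2 ![(x 0 + x 1 + x 2 + x 3) / 2, (x 0 + x 1 - x 2 - x 3) / 2,
    (x 0 - x 1 + x 2 - x 3) / 2, (x 0 - x 1 - x 2 + x 3) / 2]

theorem hh_0 (x : E4) : hh x 0 = (x 0 + x 1 + x 2 + x 3) / 2 := rfl
theorem hh_1 (x : E4) : hh x 1 = (x 0 + x 1 - x 2 - x 3) / 2 := rfl
theorem hh_2 (x : E4) : hh x 2 = (x 0 - x 1 + x 2 - x 3) / 2 := rfl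
theorem hh_3 (x : E4) : hh x 3 = (x 0 - x 1 - x 2 + x 3) / 2 := rfl

theorem hh_hh (x : E4) : hh (hh x) = x := by
  ext j
  fin_cases j
  · show hh (hh x) 0 = x 0
    rw [hh_0, hh_0, hh_1, hh_2, hh_3]; ring
  · show hh (hh x) 1 = x 1
    rw [hh_1, hh_0, hh_1, hh_2, hh_3]; ring
  · show hh (hh x) 2 = x 2
    rw [hh_2, hh_0, hh_1, hh_2, hh_3]; ring
  · show hh (hh x) 3 = x 3
    rw [hh_3, hh_0, hh_1, hh_2, hh_3]; ring

theorem hh_dist (x y : E4) : dist (hh x) (hh y) = dist x y := by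
  rw [EuclideanSpace.dist_eq, EuclideanSpace.dist_eq]
  congr 1
  simp only [Fin.sum_univ_four, Real.dist_eq, sq_abs, hh_0, hh_1, hh_2, hh_3]
  ring

theorem hh_mem (x : E4) (hx : x ∈ D4) : hh x ∈ D4 := by
  obtain ⟨n, hn, s, hs⟩ := hx
  rw [Fin.sum_univ_four] at hs
  have hs' : (n 0 : ℝ) + n 1 + n 2 + n 3 = s + s := by exact_mod_cast hs
  refine ⟨![s, s - n 2 - n 3, s - n 1 - n 3, s - n 1 - n 2], fun j => ?_, ?_⟩
  · fin_cases j
    · show hh x 0 = ((s : ℤ) : ℝ)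
      rw [hh_0, hn, hn, hn, hn]; linarith
    · show hh x 1 = ((s - n 2 - n 3 : ℤ) : ℝ)
      rw [hh_1, hn, hn, hn, hn]; push_cast; linarith
    · show hh x 2 = ((s - n 1 - n 3 : ℤ) : ℝ)
      rw [hh_2, hn, hn, hn, hn]; push_cast; linarith
    · show hh x 3 = ((s - n 1 - n 2 : ℤ) : ℝ)
      rw [hh_3, hn, hn, hn, hn]; push_cast; linarith
  · rw [Fin.sum_univ_four]
    show Even (s + (s - n 2 - n 3) + (s - n 1 - n 3) + (s - n 1 - n 2))
    exact ⟨2 * s - n 1 - n 2 - n 3, by ring⟩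

/-- the signed permutation as an isometry -/
noncomputable def spE (σ : Equiv.Perm (Fin 4)) (ε : Fin 4 → ℤˣ) : E4 ≃ᵢ E4 where
  toFun := sp σ ε
  invFun := sp σ.symm (fun j => ε (σ.symm j))
  left_inv := sp_sp σ ε
  right_inv := sp_sp' σ ε
  isometry_toFun := Isometry.of_dist_eq (sp_dist σ ε)

/-- the mixing half-turn as an isometry -/
noncomputable def hhE : E4 ≃ᵢ E4 where
  toFun := hh
  invFun := hh
  left_inv := hh_hh
  right_inv := hh_hh
  isometry_toFun := Isometry.of_dist_eq hh_dist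

theorem mem_cg (ρ : ℝ) (g : E4 ≃ᵢ E4) (h0 : g 0 = 0) (h1 : ∀ x ∈ D4, g x ∈ D4)
    (h2 : ∀ x ∈ D4, g.symm x ∈ D4) : g ∈ clusterGroup D4 0 ρ := by
  refine ⟨h0, ?_⟩
  ext y
  constructor
  · rintro ⟨x, ⟨hx, hxρ⟩, rfl⟩
    refine ⟨h1 x hx, ?_⟩
    rw [← h0, g.dist_eq]
    exact hxρ
  · rintro ⟨hy, hyρ⟩
    refine ⟨g.symm y, ⟨h2 y hy, ?_⟩, g.apply_symm_apply y⟩
    have h3 : dist (g (g.symm y)) (g 0) = dist (g.symm y) 0 := g.dist_eq _ _
    rw [g.apply_symm_apply, h0] at h3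
    rw [← h3]
    exact hyρ

/-- the signed permutation as a cluster symmetry -/
noncomputable def spG (ρ : ℝ) (σ : Equiv.Perm (Fin 4)) (ε : Fin 4 → ℤˣ) :
    clusterGroup D4 0 ρ :=
  ⟨spE σ ε, mem_cg ρ (spE σ ε)
    (by
      show sp σ ε 0 = 0
      ext j
      rw [sp_apply]
      simp)
    (sp_mem σ ε) (sp_mem σ.symm _)⟩

/-- the mixing half-turn as a cluster symmetry -/
noncomputable def hhG (ρ : ℝ) : clusterGroup D4 0 ρ :=
  ⟨hhE, mem_cg ρ hhE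
    (by
      show hh 0 = 0
      ext j
      fin_cases j
      · show hh 0 0 = 0
        rw [hh_0]; simp
      · show hh 0 1 = 0
        rw [hh_1]; simp
      · show hh 0 2 = 0
        rw [hh_2]; simp
      · show hh 0 3 = 0
        rw [hh_3]; simp)
    hh_mem hh_mem⟩

/-- the change of one sign -/
noncomputable def ddG (ρ : ℝ) : clusterGroup D4 0 ρ := spG ρ 1 ![-1, 1, 1, 1]

/-- the unit vectors -/
noncomputable def ee (i : Fin 4) : E4 := WithLp.toLp 2 fun j => if j = i then 1 else 0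

theorem ee_apply (i j : Fin 4) : ee i j = if j = i then 1 else 0 := rfl

/-- coset representatives -/
noncomputable def cc (ρ : ℝ) : Fin 3 → clusterGroup D4 0 ρ := ![1, hhG ρ, ddG ρ * hhG ρ]

/-- the elements -/
noncomputable def FF (ρ : ℝ) (p : Fin 3 × Equiv.Perm (Fin 4) × (Fin 4 → ℤˣ)) :
    clusterGroup D4 0 ρ := cc ρ p.1 * spG ρ p.2.1 p.2.2

theorem sp_ee (σ : Equiv.Perm (Fin 4)) (ε : Fin 4 → ℤˣ) :
    ∃ (k : Fin 4) (e : ℝ), e * e = 1 ∧ sp σ ε (ee 0) = WithLp.toLp 2 (Pi.single k e) := by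
  refine ⟨σ.symm 0, (((ε (σ.symm 0) : ℤˣ) : ℤ) : ℝ), unit_sq _, ?_⟩
  ext j
  rw [sp_apply, ee_apply]
  show _ = (Pi.single (σ.symm 0) _ : Fin 4 → ℝ) j
  by_cases h : σ j = 0
  · have h2 : j = σ.symm 0 := by rw [← h, Equiv.symm_apply_apply]
    rw [if_pos h, mul_one, h2, Pi.single_eq_same]
  · have h2 : j ≠ σ.symm 0 := by
      rintro rfl
      exact h (Equiv.apply_symm_apply _ _)
    rw [if_neg h, mul_zero, Pi.single_eq_of_ne h2]

/-- the product of the coordinates of the image of the first unit vector -/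
noncomputable def PP {ρ : ℝ} (g : clusterGroup D4 0 ρ) : ℝ :=
  (g : E4 ≃ᵢ E4) (ee 0) 0 * (g : E4 ≃ᵢ E4) (ee 0) 1 * (g : E4 ≃ᵢ E4) (ee 0) 2 *
    (g : E4 ≃ᵢ E4) (ee 0) 3

theorem PP_FF (ρ : ℝ) (p : Fin 3 × Equiv.Perm (Fin 4) × (Fin 4 → ℤˣ)) :
    PP (FF ρ p) = (![0, 1 / 16, -1 / 16] : Fin 3 → ℝ) p.1 := by
  obtain ⟨c, σ, ε⟩ := p
  obtain ⟨k, e, he, hk⟩ := sp_ee σ ε
  have h4 : e ^ 4 = 1 := by
    have : e ^ 4 = (e * e) * (e * e) := by ring
    rw [this, he, one_mul]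
  fin_cases c
  · have h1 : ((FF ρ (0, σ, ε) : clusterGroup D4 0 ρ) : E4 ≃ᵢ E4) (ee 0) = sp σ ε (ee 0) := rfl
    show PP (FF ρ (0, σ, ε)) = 0
    unfold PP
    rw [h1, hk]
    fin_cases k <;> simp
  · have h1 : ((FF ρ (1, σ, ε) : clusterGroup D4 0 ρ) : E4 ≃ᵢ E4) (ee 0) =
        hh (sp σ ε (ee 0)) := rfl
    show PP (FF ρ (1, σ, ε)) = 1 / 16
    unfold PP
    rw [h1, hk, hh_0, hh_1, hh_2, hh_3]
    fin_cases k
    · simp
      linear_combination (1 / 16) * h4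
    · simp
      linear_combination (1 / 16) * h4
    · simp
      linear_combination (1 / 16) * h4
    · simp
      linear_combination (1 / 16) * h4
  · have h1 : ((FF ρ (2, σ, ε) : clusterGroup D4 0 ρ) : E4 ≃ᵢ E4) (ee 0) =
        sp 1 ![-1, 1, 1, 1] (hh (sp σ ε (ee 0))) := rfl
    show PP (FF ρ (2, σ, ε)) = -1 / 16
    unfold PP
    rw [h1, hk, sp_apply, sp_apply, sp_apply, sp_apply]
    simp only [Equiv.Perm.coe_one, id_eq]
    rw [hh_0, hh_1, hh_2, hh_3]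
    fin_cases k
    · simp
      linear_combination (-1 / 16) * h4
    · simp
      linear_combination (-1 / 16) * h4
    · simp
      linear_combination (-1 / 16) * h4
    · simp
      linear_combination (-1 / 16) * h4

theorem spG_inj (ρ : ℝ) (σ σ' : Equiv.Perm (Fin 4)) (ε ε' : Fin 4 → ℤˣ)
    (h : spG ρ σ ε = spG ρ σ' ε') : σ = σ' ∧ ε = ε' := by
  have h1 : ∀ x : E4, sp σ ε x = sp σ' ε' x := by
    intro x
    have h2 : ((spG ρ σ ε : clusterGroup D4 0 ρ) : E4 ≃ᵢ E4) x =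
        ((spG ρ σ' ε' : clusterGroup D4 0 ρ) : E4 ≃ᵢ E4) x := by rw [h]
    exact h2
  have h3 : ∀ j, σ j = σ' j ∧ ε j = ε' j := by
    intro j
    have h4 : sp σ ε (ee (σ j)) j = sp σ' ε' (ee (σ j)) j := by rw [h1]
    rw [sp_apply, sp_apply, ee_apply, ee_apply, if_pos rfl, mul_one] at h4
    by_cases h5 : σ' j = σ j
    · rw [if_pos h5, mul_one] at h4
      refine ⟨h5.symm, ?_⟩
      exact Units.ext (Int.cast_injective (α := ℝ) h4)
    · rw [if_neg h5, mul_zero] at h4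
      exfalso
      have h6 := unit_sq (ε j)
      rw [h4] at h6
      norm_num at h6
  exact ⟨Equiv.ext fun j => (h3 j).1, funext fun j => (h3 j).2⟩

theorem FF_inj (ρ : ℝ) : Function.Injective (FF ρ) := by
  rintro ⟨c, σ, ε⟩ ⟨c', σ', ε'⟩ h
  have h1 : PP (FF ρ (c, σ, ε)) = PP (FF ρ (c', σ', ε')) := by rw [h]
  rw [PP_FF, PP_FF] at h1
  have hc : c = c' := by
    fin_cases c <;> fin_cases c' <;> first | rfl | (exfalso; revert h1; norm_num)
  subst hc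
  have h2 : cc ρ c * spG ρ σ ε = cc ρ c * spG ρ σ' ε' := h
  obtain ⟨h3, h4⟩ := spG_inj ρ σ σ' ε ε' (mul_left_cancel h2)
  subst h3
  subst h4
  rfl

/-- the checkerboard lattice has 1152 cluster symmetries at the origin -/
theorem d4Card : D4Card := by
  intro ρ
  have hcard : Fintype.card (Fin 3 × Equiv.Perm (Fin 4) × (Fin 4 → ℤˣ)) = 1152 := by
    rw [Fintype.card_prod, Fintype.card_prod, Fintype.card_fin, Fintype.card_perm,
      Fintype.card_fun, Fintype.card_fin, Fintype.card_units_int]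
    rfl
  let e := Fintype.equivFinOfCardEq hcard
  exact ⟨fun i => FF ρ (e.symm i), (FF_inj ρ).comp e.symm.injective⟩

end Pool.Agent.Helper70.C4
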