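import Mathlib

/-! Codes in four-dimensional space that are invariant under the signed permutations of three
coordinates: the counting, in coordinates. -/

namespace Pool.Agent.Helper70.C4

/-- the coordinate form of the hypotheses -/
structure Oct (K : ℝ → ℝ → ℝ → ℝ → Prop) : Prop where
  nrm : ∀ t a b c, K t a b c → t ^ 2 + a ^ 2 + b ^ 2 + c ^ 2 = 1
  sep : ∀ t a b c t' a' b' c', K t a b c → K t' a' b' c' →
    ¬ (t = t' ∧ a = a' ∧ b = b' ∧ c = c') → t * t' + a * a' + b * b' + c * c' ≤ 1 / 2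
  neg : ∀ t a b c, K t a b c → K t (-a) b c
  s01 : ∀ t a b c, K t a b c → K t b a c
  s12 : ∀ t a b c, K t a b c → K t a c b
  one : K 1 0 0 0

variable {K : ℝ → ℝ → ℝ → ℝ → Prop}

theorem Oct.sq_ge (h : Oct K) {t a b c : ℝ} (hk : K t a b c) (ha : a ≠ 0) : 1 / 4 ≤ a ^ 2 := by
  have h1 := h.sep t a b c t (-a) b c hk (h.neg _ _ _ _ hk) (by
    rintro ⟨-, h2, -, -⟩
    apply ha
    linarith)
  have h2 := h.nrm _ _ _ _ hk
  nlinarith

theorem Oct.diff_ge (h : Oct K) {t a b c : ℝ} (hk : K t a b c) (ha : a ≠ b) :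
    1 / 2 ≤ (a - b) ^ 2 := by
  have h1 := h.sep t a b c t b a c hk (h.s01 _ _ _ _ hk) (by
    rintro ⟨-, h2, -, -⟩
    exact ha h2)
  have h2 := h.nrm _ _ _ _ hk
  nlinarith

theorem Oct.sum_ge (h : Oct K) {t a b c : ℝ} (hk : K t a b c) (ha : a ≠ -b) :
    1 / 2 ≤ (a + b) ^ 2 := by
  have h1 := h.diff_ge (h.neg _ _ _ _ hk) (a := -a) (b := b) (by
    intro h2
    apply ha
    linarith)
  nlinarith

theorem Oct.sq_eq (h : Oct K) {t a b c : ℝ} (hk : K t a b c) (ha : a ≠ 0) (hb : b ≠ 0)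
    (hc : c ≠ 0) : a ^ 2 = b ^ 2 := by
  by_contra hne
  have h1 : a ≠ b := by
    rintro rfl
    exact hne rfl
  have h2 : a ≠ -b := by
    rintro rfl
    exact hne (by ring)
  have ha2 := h.sq_ge hk ha
  have hb2 := h.sq_ge (h.s01 _ _ _ _ hk) hb
  have hc2 := h.sq_ge (h.s01 _ _ _ _ (h.s12 _ _ _ _ hk)) hc
  have hn := h.nrm _ _ _ _ hk
  have hd := h.diff_ge hk h1
  have hs := h.sum_ge hk h2
  have hab : 1 / 16 ≤ (a * b) ^ 2 := by
    rw [mul_pow]
    nlinarith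
  rcases le_or_gt 0 (a * b) with h3 | h3
  · have h4 : 1 / 4 ≤ a * b := by
      by_contra h5
      push Not at h5
      nlinarith
    nlinarith [sq_nonneg t]
  · have h4 : a * b ≤ -1 / 4 := by
      by_contra h5
      push Not at h5
      nlinarith
    nlinarith [sq_nonneg t]

/-- height of six points on the coordinate axes -/
def P4 (K : ℝ → ℝ → ℝ → ℝ → Prop) (t : ℝ) : Prop := K t (Real.sqrt (1 - t ^ 2)) 0 0 ∧ t ^ 2 ≤ 1 / 2

/-- height of eight points on the diagonals -/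
def P3 (K : ℝ → ℝ → ℝ → ℝ → Prop) (t : ℝ) : Prop :=
  K t (Real.sqrt ((1 - t ^ 2) / 3)) (Real.sqrt ((1 - t ^ 2) / 3)) (Real.sqrt ((1 - t ^ 2) / 3)) ∧
    t ^ 2 ≤ 1 / 4

/-- twelve points -/
def P2 (K : ℝ → ℝ → ℝ → ℝ → Prop) : Prop := K 0 (Real.sqrt (1 / 2)) (Real.sqrt (1 / 2)) 0

/-- a sign -/
def sgn (p : Bool) (x : ℝ) : ℝ := cond p x (-x)

/-- the poles -/
noncomputable def F0 : Finset (ℝ × ℝ × ℝ × ℝ) := {(1, 0, 0, 0), (-1, 0, 0, 0)}

/-- six points -/
noncomputable def F4 (t : ℝ) : Finset (ℝ × ℝ × ℝ × ℝ) :=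
  (Finset.univ.image fun p : Bool => (t, sgn p (Real.sqrt (1 - t ^ 2)), 0, 0)) ∪
  ((Finset.univ.image fun p : Bool => (t, 0, sgn p (Real.sqrt (1 - t ^ 2)), 0)) ∪
   (Finset.univ.image fun p : Bool => (t, 0, 0, sgn p (Real.sqrt (1 - t ^ 2)))))

/-- eight points -/
noncomputable def F3 (t : ℝ) : Finset (ℝ × ℝ × ℝ × ℝ) :=
  Finset.univ.image fun p : Bool × Bool × Bool => (t, sgn p.1 (Real.sqrt ((1 - t ^ 2) / 3)),
    sgn p.2.1 (Real.sqrt ((1 - t ^ 2) / 3)), sgn p.2.2 (Real.sqrt ((1 - t ^ 2) / 3)))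

/-- twelve points -/
noncomputable def F2 : Finset (ℝ × ℝ × ℝ × ℝ) :=
  (Finset.univ.image fun p : Bool × Bool =>
    (0, 0, sgn p.1 (Real.sqrt (1 / 2)), sgn p.2 (Real.sqrt (1 / 2)))) ∪
  ((Finset.univ.image fun p : Bool × Bool =>
    (0, sgn p.1 (Real.sqrt (1 / 2)), 0, sgn p.2 (Real.sqrt (1 / 2)))) ∪
   (Finset.univ.image fun p : Bool × Bool =>
    (0, sgn p.1 (Real.sqrt (1 / 2)), sgn p.2 (Real.sqrt (1 / 2)), 0)))

theorem card_F0 : F0.card ≤ 2 := Finset.card_le_two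

theorem card_F4 (t : ℝ) : (F4 t).card ≤ 6 := by
  unfold F4
  refine (Finset.card_union_le _ _).trans ?_
  have h1 := Finset.card_union_le
    (Finset.univ.image fun p : Bool => (t, (0 : ℝ), sgn p (Real.sqrt (1 - t ^ 2)), (0 : ℝ)))
    (Finset.univ.image fun p : Bool => (t, (0 : ℝ), (0 : ℝ), sgn p (Real.sqrt (1 - t ^ 2))))
  have h2 := Finset.card_image_le (s := (Finset.univ : Finset Bool))
    (f := fun p : Bool => (t, sgn p (Real.sqrt (1 - t ^ 2)), (0 : ℝ), (0 : ℝ)))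
  have h3 := Finset.card_image_le (s := (Finset.univ : Finset Bool))
    (f := fun p : Bool => (t, (0 : ℝ), sgn p (Real.sqrt (1 - t ^ 2)), (0 : ℝ)))
  have h4 := Finset.card_image_le (s := (Finset.univ : Finset Bool))
    (f := fun p : Bool => (t, (0 : ℝ), (0 : ℝ), sgn p (Real.sqrt (1 - t ^ 2))))
  have h5 : (Finset.univ : Finset Bool).card = 2 := rfl
  omega

theorem card_F3 (t : ℝ) : (F3 t).card ≤ 8 := Finset.card_image_le

theorem card_F2 : F2.card ≤ 12 := by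
  unfold F2
  refine (Finset.card_union_le _ _).trans ?_
  have h1 := Finset.card_union_le
    (Finset.univ.image fun p : Bool × Bool =>
      ((0 : ℝ), sgn p.1 (Real.sqrt (1 / 2)), (0 : ℝ), sgn p.2 (Real.sqrt (1 / 2))))
    (Finset.univ.image fun p : Bool × Bool =>
      ((0 : ℝ), sgn p.1 (Real.sqrt (1 / 2)), sgn p.2 (Real.sqrt (1 / 2)), (0 : ℝ)))
  have h2 := Finset.card_image_le (s := (Finset.univ : Finset (Bool × Bool)))
    (f := fun p : Bool × Bool =>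
      ((0 : ℝ), (0 : ℝ), sgn p.1 (Real.sqrt (1 / 2)), sgn p.2 (Real.sqrt (1 / 2))))
  have h3 := Finset.card_image_le (s := (Finset.univ : Finset (Bool × Bool)))
    (f := fun p : Bool × Bool =>
      ((0 : ℝ), sgn p.1 (Real.sqrt (1 / 2)), (0 : ℝ), sgn p.2 (Real.sqrt (1 / 2))))
  have h4 := Finset.card_image_le (s := (Finset.univ : Finset (Bool × Bool)))
    (f := fun p : Bool × Bool =>
      ((0 : ℝ), sgn p.1 (Real.sqrt (1 / 2)), sgn p.2 (Real.sqrt (1 / 2)), (0 : ℝ)))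
  have h5 : (Finset.univ : Finset (Bool × Bool)).card = 4 := rfl
  omega

theorem sgn_of_sq {a x : ℝ} (hx : 0 ≤ x) (h : a ^ 2 = x) :
    ∃ p : Bool, a = sgn p (Real.sqrt x) := by
  have h1 : a ^ 2 = Real.sqrt x ^ 2 := by rw [Real.sq_sqrt hx, h]
  rcases sq_eq_sq_iff_eq_or_eq_neg.mp h1 with h2 | h2
  · exact ⟨true, h2⟩
  · exact ⟨false, h2⟩

theorem Oct.sgn_fst (h : Oct K) {t a b c : ℝ} (p : Bool) (hk : K t (sgn p a) b c) :
    K t a b c := by
  cases p
  · have h1 := h.neg _ _ _ _ hk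
    have h2 : -(sgn false a) = a := neg_neg a
    rwa [h2] at h1
  · exact hk

theorem Oct.to_P4 (h : Oct K) {t a : ℝ} (hk : K t a 0 0) (ha : a ≠ 0) :
    P4 K t ∧ ∃ p : Bool, a = sgn p (Real.sqrt (1 - t ^ 2)) := by
  have h1 := h.nrm _ _ _ _ hk
  have h2 := h.diff_ge hk ha
  have h3 : a ^ 2 = 1 - t ^ 2 := by linarith
  obtain ⟨p, hp⟩ := sgn_of_sq (by rw [← h3]; positivity) h3
  refine ⟨⟨h.sgn_fst p (by rw [← hp]; exact hk), ?_⟩, p, hp⟩
  nlinarith

theorem Oct.to_P2 (h : Oct K) {t a b : ℝ} (hk : K t a b 0) (ha : a ≠ 0) (hb : b ≠ 0) :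
    P2 K ∧ t = 0 ∧ (∃ p : Bool, a = sgn p (Real.sqrt (1 / 2))) ∧
      ∃ p : Bool, b = sgn p (Real.sqrt (1 / 2)) := by
  have h1 := h.nrm _ _ _ _ hk
  have h2 := h.diff_ge (h.s12 _ _ _ _ hk) ha
  have h3 := h.diff_ge (h.s12 _ _ _ _ (h.s01 _ _ _ _ hk)) hb
  have ht : t ^ 2 = 0 := by nlinarith [sq_nonneg t]
  have ht0 : t = 0 := by simpa using ht
  have ha2 : a ^ 2 = 1 / 2 := by nlinarith
  have hb2 : b ^ 2 = 1 / 2 := by nlinarith
  obtain ⟨p, hp⟩ := sgn_of_sq (by norm_num) ha2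
  obtain ⟨q, hq⟩ := sgn_of_sq (by norm_num) hb2
  refine ⟨?_, ht0, ⟨p, hp⟩, q, hq⟩
  subst ht0
  have h4 : K 0 (Real.sqrt (1 / 2)) b 0 := h.sgn_fst p (by rw [← hp]; exact hk)
  have h5 : K 0 (Real.sqrt (1 / 2)) (Real.sqrt (1 / 2)) 0 :=
    h.sgn_fst q (by rw [← hq]; exact h.s01 _ _ _ _ h4)
  exact h5

theorem Oct.to_P3 (h : Oct K) {t a b c : ℝ} (hk : K t a b c) (ha : a ≠ 0) (hb : b ≠ 0)
    (hc : c ≠ 0) : P3 K t ∧ (∃ p : Bool, a = sgn p (Real.sqrt ((1 - t ^ 2) / 3))) ∧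
      (∃ p : Bool, b = sgn p (Real.sqrt ((1 - t ^ 2) / 3))) ∧
      ∃ p : Bool, c = sgn p (Real.sqrt ((1 - t ^ 2) / 3)) := by
  have h1 := h.nrm _ _ _ _ hk
  have h2 := h.sq_eq hk ha hb hc
  have h3 := h.sq_eq (h.s12 _ _ _ _ hk) ha hc hb
  have h4 := h.sq_ge hk ha
  have ha2 : a ^ 2 = (1 - t ^ 2) / 3 := by linarith
  have hb2 : b ^ 2 = (1 - t ^ 2) / 3 := by linarith
  have hc2 : c ^ 2 = (1 - t ^ 2) / 3 := by linarith
  have h0 : 0 ≤ (1 - t ^ 2) / 3 := by rw [← ha2]; positivity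
  obtain ⟨p, hp⟩ := sgn_of_sq h0 ha2
  obtain ⟨q, hq⟩ := sgn_of_sq h0 hb2
  obtain ⟨w, hw⟩ := sgn_of_sq h0 hc2
  refine ⟨⟨?_, by linarith⟩, ⟨p, hp⟩, ⟨q, hq⟩, w, hw⟩
  set α := Real.sqrt ((1 - t ^ 2) / 3)
  have h5 : K t α b c := h.sgn_fst p (by rw [← hp]; exact hk)
  have h6 : K t α α c := h.sgn_fst q (by rw [← hq]; exact h.s01 _ _ _ _ h5)
  have h7 : K t c α α := h.s01 _ _ _ _ (h.s12 _ _ _ _ h6)
  exact h.sgn_fst w (by rw [← hw]; exact h7)

theorem Oct.cls (h : Oct K) {t a b c : ℝ} (hk : K t a b c) :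
    (t, a, b, c) ∈ F0 ∨ (P4 K t ∧ (t, a, b, c) ∈ F4 t) ∨ (P3 K t ∧ (t, a, b, c) ∈ F3 t) ∨
      (P2 K ∧ (t, a, b, c) ∈ F2) := by
  have hn := h.nrm _ _ _ _ hk
  by_cases ha : a = 0
  · subst ha
    by_cases hb : b = 0
    · subst hb
      by_cases hc : c = 0
      · subst hc
        left
        have h1 : t ^ 2 = 1 := by linarith
        rcases sq_eq_sq_iff_eq_or_eq_neg.mp (h1.trans (one_pow 2).symm) with h2 | h2
        · subst h2; simp [F0]
        · subst h2; simp [F0]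
      · right; left
        obtain ⟨h1, p, hp⟩ := h.to_P4 (h.s01 _ _ _ _ (h.s12 _ _ _ _ hk)) hc
        refine ⟨h1, ?_⟩
        unfold F4
        rw [Finset.mem_union, Finset.mem_union]
        right; right
        exact Finset.mem_image.mpr ⟨p, Finset.mem_univ _, by rw [← hp]⟩
    · by_cases hc : c = 0
      · subst hc
        right; left
        obtain ⟨h1, p, hp⟩ := h.to_P4 (h.s01 _ _ _ _ hk) hb
        refine ⟨h1, ?_⟩
        unfold F4
        rw [Finset.mem_union, Finset.mem_union]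
        right; left
        exact Finset.mem_image.mpr ⟨p, Finset.mem_univ _, by rw [← hp]⟩
      · right; right; right
        obtain ⟨h1, h2, ⟨p, hp⟩, q, hq⟩ :=
          h.to_P2 (h.s12 _ _ _ _ (h.s01 _ _ _ _ hk)) hb hc
        refine ⟨h1, ?_⟩
        unfold F2
        rw [Finset.mem_union, Finset.mem_union]
        left
        exact Finset.mem_image.mpr ⟨(p, q), Finset.mem_univ _, by rw [← hp, ← hq, h2]⟩
  · by_cases hb : b = 0
    · subst hb
      by_cases hc : c = 0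
      · subst hc
        right; left
        obtain ⟨h1, p, hp⟩ := h.to_P4 hk ha
        refine ⟨h1, ?_⟩
        unfold F4
        rw [Finset.mem_union, Finset.mem_union]
        left
        exact Finset.mem_image.mpr ⟨p, Finset.mem_univ _, by rw [← hp]⟩
      · right; right; right
        obtain ⟨h1, h2, ⟨p, hp⟩, q, hq⟩ := h.to_P2 (h.s12 _ _ _ _ hk) ha hc
        refine ⟨h1, ?_⟩
        unfold F2
        rw [Finset.mem_union, Finset.mem_union]
        right; left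
        exact Finset.mem_image.mpr ⟨(p, q), Finset.mem_univ _, by rw [← hp, ← hq, h2]⟩
    · by_cases hc : c = 0
      · subst hc
        right; right; right
        obtain ⟨h1, h2, ⟨p, hp⟩, q, hq⟩ := h.to_P2 hk ha hb
        refine ⟨h1, ?_⟩
        unfold F2
        rw [Finset.mem_union, Finset.mem_union]
        right; right
        exact Finset.mem_image.mpr ⟨(p, q), Finset.mem_univ _, by rw [← hp, ← hq, h2]⟩
      · right; right; left
        obtain ⟨h1, ⟨p, hp⟩, ⟨q, hq⟩, w, hw⟩ := h.to_P3 hk ha hb hc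
        refine ⟨h1, ?_⟩
        unfold F3
        exact Finset.mem_image.mpr ⟨(p, q, w), Finset.mem_univ _, by
          show (t, sgn p (Real.sqrt ((1 - t ^ 2) / 3)), sgn q (Real.sqrt ((1 - t ^ 2) / 3)),
            sgn w (Real.sqrt ((1 - t ^ 2) / 3))) = (t, a, b, c)
          rw [← hp, ← hq, ← hw]⟩

theorem Oct.P4_le (h : Oct K) {t : ℝ} (hk : P4 K t) : t ≤ 1 / 2 := by
  have h1 := h.sep _ _ _ _ _ _ _ _ hk.1 h.one (by
    rintro ⟨h2, -, -, -⟩
    have h3 := hk.2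
    rw [h2] at h3
    norm_num at h3)
  linarith

theorem Oct.P4_sep (h : Oct K) {t t' : ℝ} (hk : P4 K t) (hk' : P4 K t') (hne : t ≠ t') :
    t * t' + Real.sqrt (1 - t ^ 2) * Real.sqrt (1 - t' ^ 2) ≤ 1 / 2 := by
  have h1 := h.sep _ _ _ _ _ _ _ _ hk.1 hk'.1 (fun h2 => hne h2.1)
  linarith

theorem Oct.P4_arccos (h : Oct K) {t : ℝ} (hk : P4 K t) :
    Real.pi / 3 ≤ Real.arccos t ∧ Real.arccos t < Real.pi := by
  constructor
  · rw [← Real.arccos_cos (x := Real.pi / 3) (by positivity) (by linarith [Real.pi_pos]),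
      Real.cos_pi_div_three]
    exact Real.arccos_le_arccos (h.P4_le hk)
  · rcases lt_or_eq_of_le (Real.arccos_le_pi t) with h1 | h1
    · exact h1
    · exfalso
      rw [Real.arccos_eq_pi] at h1
      have := hk.2
      nlinarith

theorem Oct.P4_dist (h : Oct K) {t t' : ℝ} (hk : P4 K t) (hk' : P4 K t') (hne : t ≠ t') :
    Real.pi / 3 ≤ |Real.arccos t - Real.arccos t'| := by
  by_contra hcon
  push Not at hcon
  have h1 := h.P4_sep hk hk' hne
  have ht : -1 ≤ t ∧ t ≤ 1 := by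
    have := hk.2
    constructor <;> nlinarith
  have ht' : -1 ≤ t' ∧ t' ≤ 1 := by
    have := hk'.2
    constructor <;> nlinarith
  have h2 : Real.cos (Real.arccos t - Real.arccos t') =
      t * t' + Real.sqrt (1 - t ^ 2) * Real.sqrt (1 - t' ^ 2) := by
    rw [Real.cos_sub, Real.cos_arccos ht.1 ht.2, Real.cos_arccos ht'.1 ht'.2,
      Real.sin_arccos, Real.sin_arccos]
  have h3 := Real.cos_lt_cos_of_nonneg_of_le_pi (abs_nonneg (Real.arccos t - Real.arccos t'))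
    (y := Real.pi / 3) (by linarith [Real.pi_pos]) hcon
  rw [Real.cos_abs, h2, Real.cos_pi_div_three] at h3
  linarith

theorem Oct.P4_two (h : Oct K) {t u v : ℝ} (ht : P4 K t) (hu : P4 K u) (hv : P4 K v) :
    t = u ∨ t = v ∨ u = v := by
  by_contra hcon
  push Not at hcon
  obtain ⟨h1, h2, h3⟩ := hcon
  have a1 := h.P4_dist ht hu h1
  have a2 := h.P4_dist ht hv h2
  have a3 := h.P4_dist hu hv h3
  obtain ⟨b1, c1⟩ := h.P4_arccos ht
  obtain ⟨b2, c2⟩ := h.P4_arccos hu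
  obtain ⟨b3, c3⟩ := h.P4_arccos hv
  rcases le_abs.mp a1 with d1 | d1 <;> rcases le_abs.mp a2 with d2 | d2 <;>
    rcases le_abs.mp a3 with d3 | d3 <;> linarith

theorem alpha_ge {t : ℝ} (ht : t ^ 2 ≤ 1 / 4) : 1 / 2 ≤ Real.sqrt ((1 - t ^ 2) / 3) := by
  apply Real.le_sqrt_of_sq_le
  nlinarith

theorem Oct.P3_two (h : Oct K) {t u : ℝ} (ht : P3 K t) (hu : P3 K u) (hne : t ≠ u) :
    (t = 1 / 2 ∧ u = -1 / 2) ∨ (t = -1 / 2 ∧ u = 1 / 2) := by
  have h1 := h.sep _ _ _ _ _ _ _ _ ht.1 hu.1 (fun h2 => hne h2.1)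
  have h2 := alpha_ge ht.2
  have h3 := alpha_ge hu.2
  have h4 : 1 / 4 ≤ Real.sqrt ((1 - t ^ 2) / 3) * Real.sqrt ((1 - u ^ 2) / 3) := by
    nlinarith
  have h5 : t * u ≤ -1 / 4 := by linarith
  have h6 := ht.2
  have h7 := hu.2
  have h8 : (t + u) ^ 2 ≤ 0 := by nlinarith
  have h9 : t + u = 0 := by
    have : (t + u) ^ 2 = 0 := le_antisymm h8 (sq_nonneg _)
    simpa using this
  have h10 : u = -t := by linarith
  subst h10
  have h11 : t ^ 2 = (1 / 2) ^ 2 := by nlinarith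
  rcases sq_eq_sq_iff_eq_or_eq_neg.mp h11 with h12 | h12
  · left
    constructor <;> linarith
  · right
    constructor <;> linarith

/-- with two heights of eight points, the six points are at height zero -/
theorem Oct.P4_zero (h : Oct K) (h1 : P3 K (1 / 2)) (h2 : P3 K (-1 / 2)) {t : ℝ}
    (ht : P4 K t) : t = 0 := by
  have hα : Real.sqrt ((1 - (1 / 2 : ℝ) ^ 2) / 3) = 1 / 2 := by
    rw [show ((1 - (1 / 2 : ℝ) ^ 2) / 3) = (1 / 2) ^ 2 by norm_num, Real.sqrt_sq (by norm_num)]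
  have hα' : Real.sqrt ((1 - (-1 / 2 : ℝ) ^ 2) / 3) = 1 / 2 := by
    rw [show ((1 - (-1 / 2 : ℝ) ^ 2) / 3) = (1 / 2) ^ 2 by norm_num, Real.sqrt_sq (by norm_num)]
  have k1 := h1.1
  rw [hα] at k1
  have k2 := h2.1
  rw [hα'] at k2
  have h3 := h.sep _ _ _ _ _ _ _ _ ht.1 k1 (by rintro ⟨-, -, h4, -⟩; norm_num at h4)
  have h4 := h.sep _ _ _ _ _ _ _ _ ht.1 k2 (by rintro ⟨-, -, h4, -⟩; norm_num at h4)
  have h5 := ht.2
  set s := Real.sqrt (1 - t ^ 2) with hs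
  have hs2 : s ^ 2 = 1 - t ^ 2 := Real.sq_sqrt (by linarith)
  have hs0 : 1 / 2 ≤ s := by
    apply Real.le_sqrt_of_sq_le
    nlinarith
  have h6 : t ≤ 1 - s := by linarith
  have h7 : -t ≤ 1 - s := by linarith
  have h8 : t ^ 2 ≤ (1 - s) ^ 2 := by nlinarith
  have h9 : s = 1 := by nlinarith
  rw [h9] at h6 h7
  linarith

/-- with the twelve points there are no eight points -/
theorem Oct.P2_P3 (h : Oct K) (h2 : P2 K) {t : ℝ} (ht : P3 K t) : False := by
  have h1 := h.sep _ _ _ _ _ _ _ _ h2 ht.1 (by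
    rintro ⟨-, -, -, h4⟩
    have := alpha_ge ht.2
    linarith)
  have h3 := alpha_ge ht.2
  have h4 : (7 : ℝ) / 10 ≤ Real.sqrt (1 / 2) := by
    apply Real.le_sqrt_of_sq_le
    norm_num
  nlinarith

/-- with the twelve points the six points are at one height -/
theorem Oct.P2_P4 (h : Oct K) (h2 : P2 K) {t : ℝ} (ht : P4 K t) : t = -Real.sqrt (1 / 2) := by
  have h3 := h.P4_le ht
  have h5 := ht.2
  have hr2 : Real.sqrt (1 / 2) ^ 2 = 1 / 2 := Real.sq_sqrt (by norm_num)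
  have hr0 : 0 ≤ Real.sqrt (1 / 2) := Real.sqrt_nonneg _
  have h1 := h.sep _ _ _ _ _ _ _ _ h2 ht.1 (by
    rintro ⟨-, -, h4, -⟩
    rw [h4] at hr2
    norm_num at hr2)
  set s := Real.sqrt (1 - t ^ 2) with hs
  have hs2 : s ^ 2 = 1 - t ^ 2 := Real.sq_sqrt (by linarith)
  have hs0 : 0 ≤ s := Real.sqrt_nonneg _
  have h6 : Real.sqrt (1 / 2) * s ≤ 1 / 2 := by linarith
  have h7 : s ^ 2 ≤ 1 / 2 := by
    have : (Real.sqrt (1 / 2) * s) ^ 2 ≤ (1 / 2) ^ 2 :=
      pow_le_pow_left₀ (mul_nonneg hr0 hs0) h6 2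
    rw [mul_pow, hr2] at this
    linarith
  have h8 : t ^ 2 = Real.sqrt (1 / 2) ^ 2 := by
    rw [hr2]
    linarith
  rcases sq_eq_sq_iff_eq_or_eq_neg.mp h8 with h9 | h9
  · exfalso
    have h10 : (7 : ℝ) / 10 ≤ Real.sqrt (1 / 2) := by
      apply Real.le_sqrt_of_sq_le
      norm_num
    linarith
  · exact h9

/-- at most two values -/
theorem two_values {P : ℝ → Prop} (h : ∀ t u v, P t → P u → P v → t = u ∨ t = v ∨ u = v) :
    ∃ t u, ∀ v, P v → v = t ∨ v = u := by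
  by_cases h1 : ∃ t u, P t ∧ P u ∧ t ≠ u
  · obtain ⟨t, u, ht, hu, hne⟩ := h1
    refine ⟨t, u, fun v hv => ?_⟩
    rcases h t u v ht hu hv with h2 | h2 | h2
    · exact absurd h2 hne
    · exact Or.inl h2.symm
    · exact Or.inr h2.symm
  · push Not at h1
    by_cases h2 : ∃ t, P t
    · obtain ⟨t, ht⟩ := h2
      exact ⟨t, t, fun v hv => Or.inl (h1 v t hv ht)⟩
    · exact ⟨0, 0, fun v hv => absurd ⟨v, hv⟩ h2⟩

/-- the set is contained in a set with at most 24 points -/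
theorem Oct.cover (h : Oct K) : ∃ F : Finset (ℝ × ℝ × ℝ × ℝ), F.card ≤ 24 ∧
    ∀ t a b c, K t a b c → (t, a, b, c) ∈ F := by
  by_cases h2 : P2 K
  · refine ⟨F0 ∪ (F4 (-Real.sqrt (1 / 2)) ∪ F2), ?_, ?_⟩
    · have c1 := Finset.card_union_le F0 (F4 (-Real.sqrt (1 / 2)) ∪ F2)
      have c2 := Finset.card_union_le (F4 (-Real.sqrt (1 / 2))) F2
      have c3 := card_F0
      have c4 := card_F4 (-Real.sqrt (1 / 2))
      have c5 := card_F2
      omega
    · intro t a b c hk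
      rw [Finset.mem_union, Finset.mem_union]
      rcases h.cls hk with h3 | ⟨h3, h4⟩ | ⟨h3, h4⟩ | ⟨h3, h4⟩
      · exact Or.inl h3
      · rw [h.P2_P4 h2 h3] at h4
        right; left
        rw [h.P2_P4 h2 h3]
        exact h4
      · exact absurd h3 (fun h5 => h.P2_P3 h2 h5)
      · exact Or.inr (Or.inr h4)
  · by_cases h5 : ∃ t u, P3 K t ∧ P3 K u ∧ t ≠ u
    · have h6 : P3 K (1 / 2) ∧ P3 K (-1 / 2) := by
        obtain ⟨t, u, ht, hu, hne⟩ := h5
        rcases h.P3_two ht hu hne with ⟨rfl, rfl⟩ | ⟨rfl, rfl⟩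
        · exact ⟨ht, hu⟩
        · exact ⟨hu, ht⟩
      have h7 : ∀ t, P3 K t → t = 1 / 2 ∨ t = -1 / 2 := by
        intro t ht
        by_cases h8 : t = 1 / 2
        · exact Or.inl h8
        · right
          rcases h.P3_two ht h6.1 h8 with ⟨h9, -⟩ | ⟨h9, -⟩
          · exact absurd h9 h8
          · exact h9
      refine ⟨F0 ∪ (F4 0 ∪ (F3 (1 / 2) ∪ F3 (-1 / 2))), ?_, ?_⟩
      · have c1 := Finset.card_union_le F0 (F4 0 ∪ (F3 (1 / 2) ∪ F3 (-1 / 2)))
        have c2 := Finset.card_union_le (F4 0) (F3 (1 / 2) ∪ F3 (-1 / 2))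
        have c3 := Finset.card_union_le (F3 (1 / 2)) (F3 (-1 / 2))
        have c4 := card_F0
        have c5 := card_F4 0
        have c6 := card_F3 (1 / 2)
        have c7 := card_F3 (-1 / 2)
        omega
      · intro t a b c hk
        rw [Finset.mem_union, Finset.mem_union, Finset.mem_union]
        rcases h.cls hk with h3 | ⟨h3, h4⟩ | ⟨h3, h4⟩ | ⟨h3, h4⟩
        · exact Or.inl h3
        · have h8 := h.P4_zero h6.1 h6.2 h3
          subst h8
          exact Or.inr (Or.inl h4)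
        · rcases h7 t h3 with h8 | h8
          · subst h8
            exact Or.inr (Or.inr (Or.inl h4))
          · subst h8
            exact Or.inr (Or.inr (Or.inr h4))
        · exact absurd h3 h2
    · push Not at h5
      obtain ⟨u, v, huv⟩ := two_values (P := P4 K) (fun t u v ht hu hv => h.P4_two ht hu hv)
      obtain ⟨w, hw⟩ : ∃ w, ∀ t, P3 K t → t = w := by
        by_cases h6 : ∃ t, P3 K t
        · obtain ⟨w, hw⟩ := h6
          exact ⟨w, fun t ht => h5 t w ht hw⟩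
        · exact ⟨0, fun t ht => absurd ⟨t, ht⟩ h6⟩
      refine ⟨F0 ∪ (F4 u ∪ (F4 v ∪ F3 w)), ?_, ?_⟩
      · have c1 := Finset.card_union_le F0 (F4 u ∪ (F4 v ∪ F3 w))
        have c2 := Finset.card_union_le (F4 u) (F4 v ∪ F3 w)
        have c3 := Finset.card_union_le (F4 v) (F3 w)
        have c4 := card_F0
        have c5 := card_F4 u
        have c6 := card_F4 v
        have c7 := card_F3 w
        omega
      · intro t a b c hk
        rw [Finset.mem_union, Finset.mem_union, Finset.mem_union]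
        rcases h.cls hk with h3 | ⟨h3, h4⟩ | ⟨h3, h4⟩ | ⟨h3, h4⟩
        · exact Or.inl h3
        · rcases huv t h3 with h8 | h8
          · subst h8
            exact Or.inr (Or.inl h4)
          · subst h8
            exact Or.inr (Or.inr (Or.inl h4))
        · have h8 := hw t h3
          subst h8
          exact Or.inr (Or.inr (Or.inr h4))
        · exact absurd h3 h2

end Pool.Agent.Helper70.C4
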