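import Pool.Agent.Helper41.Cluster4.Goals
import Pool.Agent.Helper70.C4.OctaCore

/-! A code in four-dimensional space that is invariant under the signed permutations of three
coordinates has at most 24 points. -/

namespace Pool.Agent.Helper70.C4

open Module Pool.Agent.Helper41.Cluster4
open scoped RealInnerProductSpace

variable {E : Type*} [NormedAddCommGroup E] [InnerProductSpace ℝ E]

theorem decomp (hE : finrank ℝ E = 4) {y : E} {e : Fin 3 → E} (hy : ‖y‖ = 1)
    (he : Orthonormal ℝ e) (hye : ∀ i, ⟪e i, y⟫ = 0) (z : E) :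
    z = ⟪z, y⟫ • y + ⟪z, e 0⟫ • e 0 + ⟪z, e 1⟫ • e 1 + ⟪z, e 2⟫ • e 2 := by
  have : FiniteDimensional ℝ E := FiniteDimensional.of_finrank_pos (by rw [hE]; norm_num)
  have hey : ∀ i, ⟪y, e i⟫ = 0 := fun i => by rw [real_inner_comm]; exact hye i
  have hon : Orthonormal ℝ (Fin.cons y e : Fin 4 → E) := by
    rw [orthonormal_iff_ite]
    intro i j
    have he' := orthonormal_iff_ite.mp he
    refine Fin.cases ?_ (fun i => ?_) i <;> refine Fin.cases ?_ (fun j => ?_) j
    · rw [Fin.cons_zero, if_pos rfl, real_inner_self_eq_norm_sq, hy, one_pow]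
    · rw [Fin.cons_zero, Fin.cons_succ, if_neg (Fin.succ_ne_zero j).symm]
      exact hey j
    · rw [Fin.cons_zero, Fin.cons_succ, if_neg (Fin.succ_ne_zero i)]
      exact hye i
    · rw [Fin.cons_succ, Fin.cons_succ, he']
      simp [Fin.succ_inj]
  have hspan : Submodule.span ℝ (Set.range (Fin.cons y e : Fin 4 → E)) = ⊤ :=
    hon.linearIndependent.span_eq_top_of_card_eq_finrank (by rw [hE]; rfl)
  set w := z - (⟪z, y⟫ • y + ⟪z, e 0⟫ • e 0 + ⟪z, e 1⟫ • e 1 + ⟪z, e 2⟫ • e 2) with hw
  have hyy : ⟪y, y⟫ = 1 := by rw [real_inner_self_eq_norm_sq, hy, one_pow]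
  have hee : ∀ i j, ⟪e i, e j⟫ = if i = j then (1 : ℝ) else 0 := orthonormal_iff_ite.mp he
  have h0 : ∀ i, ⟪w, (Fin.cons y e : Fin 4 → E) i⟫ = 0 := by
    intro i
    refine Fin.cases ?_ (fun i => ?_) i
    · rw [Fin.cons_zero, hw, inner_sub_left, inner_add_left, inner_add_left, inner_add_left,
        real_inner_smul_left, real_inner_smul_left, real_inner_smul_left, real_inner_smul_left,
        hyy, hye, hye, hye]
      ring
    · rw [Fin.cons_succ, hw, inner_sub_left, inner_add_left, inner_add_left, inner_add_left,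
        real_inner_smul_left, real_inner_smul_left, real_inner_smul_left, real_inner_smul_left,
        hey, hee, hee, hee]
      fin_cases i <;> simp
  have h1 : w ∈ (Submodule.span ℝ (Set.range (Fin.cons y e : Fin 4 → E)))ᗮ := by
    rw [Submodule.mem_orthogonal']
    intro u hu
    induction hu using Submodule.span_induction with
    | mem x hx =>
      obtain ⟨i, rfl⟩ := hx
      exact h0 i
    | zero => exact inner_zero_right _
    | add a b _ _ ha hb => rw [inner_add_right, ha, hb, add_zero]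
    | smul c a _ ha => rw [real_inner_smul_right, ha, mul_zero]
  rw [hspan, Submodule.top_orthogonal_eq_bot, Submodule.mem_bot] at h1
  rw [hw, sub_eq_zero] at h1
  exact h1

theorem inner_pt {y : E} {e : Fin 3 → E} (hy : ‖y‖ = 1)
    (he : Orthonormal ℝ e) (hye : ∀ i, ⟪e i, y⟫ = 0) (t a b c t' a' b' c' : ℝ) :
    ⟪t • y + a • e 0 + b • e 1 + c • e 2, t' • y + a' • e 0 + b' • e 1 + c' • e 2⟫ =
      t * t' + a * a' + b * b' + c * c' := by
  have hey : ∀ i, ⟪y, e i⟫ = 0 := fun i => by rw [real_inner_comm]; exact hye i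
  have hyy : ⟪y, y⟫ = 1 := by rw [real_inner_self_eq_norm_sq, hy, one_pow]
  have hee : ∀ i j, ⟪e i, e j⟫ = if i = j then (1 : ℝ) else 0 := orthonormal_iff_ite.mp he
  simp only [inner_add_left, inner_add_right, real_inner_smul_left, real_inner_smul_right,
    hyy, hye, hey, hee]
  simp
  ring

/-- a code invariant under the signed permutations has at most 24 points -/
theorem octaN : OctaN E := by
  intro hE N y e H hN hyN hInv hHy he hye hH
  have hy : ‖y‖ = 1 := hN.norm y hyN
  let K : ℝ → ℝ → ℝ → ℝ → Prop := fun t a b c => t • y + a • e 0 + b • e 1 + c • e 2 ∈ N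
  have hK : Oct K := by
    constructor
    · intro t a b c hk
      have h1 := hN.norm _ hk
      have h2 := real_inner_self_eq_norm_sq (t • y + a • e 0 + b • e 1 + c • e 2)
      rw [h1, inner_pt hy he hye] at h2
      linarith
    · intro t a b c t' a' b' c' hk hk' hne
      have h1 : t • y + a • e 0 + b • e 1 + c • e 2 ≠
          t' • y + a' • e 0 + b' • e 1 + c' • e 2 := by
        intro h2
        apply hne
        have k1 := inner_pt hy he hye t a b c 1 0 0 0
        have k2 := inner_pt hy he hye t a b c 0 1 0 0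
        have k3 := inner_pt hy he hye t a b c 0 0 1 0
        have k4 := inner_pt hy he hye t a b c 0 0 0 1
        rw [h2, inner_pt hy he hye] at k1 k2 k3 k4
        refine ⟨?_, ?_, ?_, ?_⟩ <;> linarith
      have h2 := hN.sep _ hk _ hk' h1
      rwa [inner_pt hy he hye] at h2
    · intro t a b c hk
      obtain ⟨A, hA, hA2⟩ := hH 1 ![-1, 1, 1] (by
        intro i
        fin_cases i
        · right; rfl
        · left; rfl
        · left; rfl)
      have h1 := hInv A hA _ hk
      have h2 : A (t • y + a • e 0 + b • e 1 + c • e 2) =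
          t • y + (-a) • e 0 + b • e 1 + c • e 2 := by
        rw [map_add, map_add, map_add, map_smul, map_smul, map_smul, map_smul, hHy A hA, hA2,
          hA2, hA2]
        simp
      rw [h2] at h1
      exact h1
    · intro t a b c hk
      obtain ⟨A, hA, hA2⟩ := hH (Equiv.swap 0 1) (fun _ => 1) (fun _ => Or.inl rfl)
      have h1 := hInv A hA _ hk
      have h3 : (Equiv.swap (0 : Fin 3) 1) 2 = 2 := by decide
      have h2 : A (t • y + a • e 0 + b • e 1 + c • e 2) =
          t • y + b • e 0 + a • e 1 + c • e 2 := by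
        rw [map_add, map_add, map_add, map_smul, map_smul, map_smul, map_smul, hHy A hA, hA2,
          hA2, hA2, Equiv.swap_apply_left, Equiv.swap_apply_right, h3]
        simp only [one_smul]
        abel
      rw [h2] at h1
      exact h1
    · intro t a b c hk
      obtain ⟨A, hA, hA2⟩ := hH (Equiv.swap 1 2) (fun _ => 1) (fun _ => Or.inl rfl)
      have h1 := hInv A hA _ hk
      have h3 : (Equiv.swap (1 : Fin 3) 2) 0 = 0 := by decide
      have h2 : A (t • y + a • e 0 + b • e 1 + c • e 2) =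
          t • y + a • e 0 + c • e 1 + b • e 2 := by
        rw [map_add, map_add, map_add, map_smul, map_smul, map_smul, map_smul, hHy A hA, hA2,
          hA2, hA2, Equiv.swap_apply_left, Equiv.swap_apply_right, h3]
        simp only [one_smul]
        abel
      rw [h2] at h1
      exact h1
    · show (1 : ℝ) • y + (0 : ℝ) • e 0 + (0 : ℝ) • e 1 + (0 : ℝ) • e 2 ∈ N
      simpa using hyN
  obtain ⟨F, hF, hc⟩ := hK.cover
  let φ : E → ℝ × ℝ × ℝ × ℝ := fun z => (⟪z, y⟫, ⟪z, e 0⟫, ⟪z, e 1⟫, ⟪z, e 2⟫)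
  have hφ : Set.InjOn φ N := by
    intro z _ z' _ h
    have h1 : ⟪z, y⟫ = ⟪z', y⟫ := congrArg (fun p => p.1) h
    have h2 : ⟪z, e 0⟫ = ⟪z', e 0⟫ := congrArg (fun p => p.2.1) h
    have h3 : ⟪z, e 1⟫ = ⟪z', e 1⟫ := congrArg (fun p => p.2.2.1) h
    have h4 : ⟪z, e 2⟫ = ⟪z', e 2⟫ := congrArg (fun p => p.2.2.2) h
    rw [decomp hE hy he hye z, decomp hE hy he hye z', h1, h2, h3, h4]
  have hsub : φ '' N ⊆ (F : Set (ℝ × ℝ × ℝ × ℝ)) := by
    rintro _ ⟨z, hz, rfl⟩
    have h1 : K ⟪z, y⟫ ⟪z, e 0⟫ ⟪z, e 1⟫ ⟪z, e 2⟫ := by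
      show _ ∈ N
      rw [← decomp hE hy he hye z]
      exact hz
    exact hc _ _ _ _ h1
  calc N.ncard = (φ '' N).ncard := hφ.ncard_image.symm
    _ ≤ (F : Set (ℝ × ℝ × ℝ × ℝ)).ncard := Set.ncard_le_ncard hsub F.finite_toSet
    _ = F.card := Set.ncard_coe_finset F
    _ ≤ 24 := hF

end Pool.Agent.Helper70.C4
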